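import Pool.Agent.H12.HS.Targets
import Pool.Agent.H12.HS.Basic

/-!
# Module AUT (MP_eb1332_ag): shears and the swap are automorphisms of `P2`.
-/

namespace Pool.Agent.H67.HZ.AUT

open Pool.Agent.H12.HS

universe u

section Gen

variable {Ω : Type u} [Field Ω]

/-- the identification of `P2` with power series in two variables -/
noncomputable def E2 : MvPowerSeries (Option Unit) Ω ≃ₐ[Ω] P2 Ω :=
  MvPowerSeries.optionEquivLeft Unit Ω

theorem E2_none : E2 (MvPowerSeries.X none : MvPowerSeries (Option Unit) Ω) = py Ω :=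
  MvPowerSeries.optionEquivLeft_X_none

theorem E2_some : E2 (MvPowerSeries.X (some ()) : MvPowerSeries (Option Unit) Ω) = px Ω :=
  MvPowerSeries.optionEquivLeft_X_some ()

theorem E2_C (c : Ω) : E2 (algebraMap Ω (MvPowerSeries (Option Unit) Ω) c) = cst c := by
  rw [AlgEquiv.commutes, algebraMap_P2]

/-- substitution automorphisms -/
theorem exists_aut (a b : Option Unit → MvPowerSeries (Option Unit) Ω)
    (ha : MvPowerSeries.HasSubst a) (hb : MvPowerSeries.HasSubst b)
    (hab : ∀ s, MvPowerSeries.substAlgHom (R := Ω) hb (a s) = MvPowerSeries.X s)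
    (hba : ∀ s, MvPowerSeries.substAlgHom (R := Ω) ha (b s) = MvPowerSeries.X s) :
    ∃ σ : MvPowerSeries (Option Unit) Ω ≃ₐ[Ω] MvPowerSeries (Option Unit) Ω,
      ∀ s, σ (MvPowerSeries.X s) = a s := by
  refine ⟨AlgEquiv.ofAlgHom (MvPowerSeries.substAlgHom (R := Ω) ha)
    (MvPowerSeries.substAlgHom (R := Ω) hb) ?_ ?_, ?_⟩
  · ext1 f
    change MvPowerSeries.substAlgHom (R := Ω) ha (MvPowerSeries.substAlgHom (R := Ω) hb f) = f
    rw [MvPowerSeries.substAlgHom_apply, MvPowerSeries.substAlgHom_apply,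
      MvPowerSeries.subst_comp_subst_apply hb ha]
    have : (fun s => MvPowerSeries.subst a (b s)) = MvPowerSeries.X := by
      funext s
      have := hba s
      rw [MvPowerSeries.substAlgHom_apply] at this
      exact this
    rw [this, MvPowerSeries.subst_self]
    rfl
  · ext1 f
    change MvPowerSeries.substAlgHom (R := Ω) hb (MvPowerSeries.substAlgHom (R := Ω) ha f) = f
    rw [MvPowerSeries.substAlgHom_apply, MvPowerSeries.substAlgHom_apply,
      MvPowerSeries.subst_comp_subst_apply ha hb]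
    have : (fun s => MvPowerSeries.subst b (a s)) = MvPowerSeries.X := by
      funext s
      have := hab s
      rw [MvPowerSeries.substAlgHom_apply] at this
      exact this
    rw [this, MvPowerSeries.subst_self]
    rfl
  · intro s
    change MvPowerSeries.substAlgHom (R := Ω) ha (MvPowerSeries.X s) = a s
    rw [MvPowerSeries.substAlgHom_X]

/-- transport to `P2` -/
theorem exists_aut_P2 (σ : MvPowerSeries (Option Unit) Ω ≃ₐ[Ω] MvPowerSeries (Option Unit) Ω) :
    ∃ τ : P2 Ω ≃+* P2 Ω, (∀ a, τ (cst a) = cst a) ∧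
      τ (px Ω) = E2 (σ (MvPowerSeries.X (some ()))) ∧
      τ (py Ω) = E2 (σ (MvPowerSeries.X none)) := by
  refine ⟨((E2.symm.trans σ).trans E2).toRingEquiv, ?_, ?_, ?_⟩
  · intro a
    change E2 (σ (E2.symm (cst a))) = cst a
    rw [← E2_C, AlgEquiv.symm_apply_apply, AlgEquiv.commutes]
  · change E2 (σ (E2.symm (px Ω))) = _
    rw [← E2_some, AlgEquiv.symm_apply_apply]
  · change E2 (σ (E2.symm (py Ω))) = _
    rw [← E2_none, AlgEquiv.symm_apply_apply]

theorem decomp (p : P2 Ω) : ∃ a b, p = cst (ev0 p) + px Ω * a + py Ω * b ∧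
    ev0 a = lx p ∧ ev0 b = ly p := by
  obtain ⟨a, b, h⟩ := exists_of_ev0 (p - cst (ev0 p)) (by rw [map_sub, ev0_cst, sub_self])
  have hp : p = cst (ev0 p) + px Ω * a + py Ω * b := by
    rw [add_assoc, ← h]; ring
  have lxc : ∀ c : Ω, lx (cst c) = 0 := fun c => by
    rw [lx, cf_cst]; simp
  have lyc : ∀ c : Ω, ly (cst c) = 0 := fun c => by
    rw [ly, cf_cst]; simp
  have lxx : lx (px Ω) = 1 := by simp [lx, cf, px]
  have lxy : lx (py Ω) = 0 := by simp [lx, cf, py]
  have lyx : ly (px Ω) = 0 := by simp [ly, cf, px]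
  have lyy : ly (py Ω) = 1 := by simp [ly, cf, py]
  refine ⟨a, b, hp, ?_, ?_⟩
  · conv_rhs => rw [hp]
    rw [lx_add, lx_add, lx_mul, lx_mul, lxc, lxx, lxy, ev0_px, ev0_py]
    ring
  · conv_rhs => rw [hp]
    rw [ly_add, ly_add, ly_mul, ly_mul, lyc, lyx, lyy, ev0_px, ev0_py]
    ring

theorem lin (τ : P2 Ω ≃+* P2 Ω) (h0 : ∀ a, τ (cst a) = cst a) (hx : ev0 (τ (px Ω)) = 0)
    (hy : ev0 (τ (py Ω)) = 0) :
    (∀ p, ev0 (τ p) = ev0 p) ∧
    (∀ p, lx (τ p) = lx (τ (px Ω)) * lx p + lx (τ (py Ω)) * ly p) ∧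
    (∀ p, ly (τ p) = ly (τ (px Ω)) * lx p + ly (τ (py Ω)) * ly p) := by
  have h1 : ∀ p, ev0 (τ p) = ev0 p := by
    intro p
    obtain ⟨a, b, h, -, -⟩ := decomp p
    conv_lhs => rw [h]
    simp only [map_add, map_mul, h0, hx, hy, ev0_cst]
    ring
  have lxc : ∀ c : Ω, lx (cst c) = 0 := fun c => by
    rw [lx, cf_cst]; simp
  have lyc : ∀ c : Ω, ly (cst c) = 0 := fun c => by
    rw [ly, cf_cst]; simp
  refine ⟨h1, ?_, ?_⟩
  · intro p
    obtain ⟨a, b, h, ha, hb⟩ := decomp p
    conv_lhs => rw [h]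
    rw [map_add, map_add, map_mul, map_mul, h0, lx_add, lx_add, lx_mul, lx_mul, hx, hy, lxc,
      h1, h1, ha, hb]
    ring
  · intro p
    obtain ⟨a, b, h, ha, hb⟩ := decomp p
    conv_lhs => rw [h]
    rw [map_add, map_add, map_mul, map_mul, h0, ly_add, ly_add, ly_mul, ly_mul, hx, hy, lyc,
      h1, h1, ha, hb]
    ring

end Gen

/-- the family of the shear -/
noncomputable def shf {Ω : Type u} [Field Ω] (c : Ω) :
    Option Unit → MvPowerSeries (Option Unit) Ω
  | none => MvPowerSeries.X none + c • MvPowerSeries.X (some ())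
  | some _ => MvPowerSeries.X (some ())

/-- the family of the swap -/
noncomputable def swf {Ω : Type u} [Field Ω] :
    Option Unit → MvPowerSeries (Option Unit) Ω
  | none => MvPowerSeries.X (some ())
  | some _ => MvPowerSeries.X none

theorem hs_shf {Ω : Type u} [Field Ω] (c : Ω) : MvPowerSeries.HasSubst (shf c) := by
  apply MvPowerSeries.hasSubst_of_constantCoeff_zero
  intro s
  rcases s with _ | s
  · simp [shf, MvPowerSeries.smul_eq_C_mul]
  · simp [shf]

theorem hs_swf {Ω : Type u} [Field Ω] : MvPowerSeries.HasSubst (swf (Ω := Ω)) := by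
  apply MvPowerSeries.hasSubst_of_constantCoeff_zero
  intro s
  rcases s with _ | s <;> simp [swf]

theorem aut : T_AUT.{u} := by
  intro Ω _
  have lxx : lx (px Ω) = 1 := by simp [lx, cf, px]
  have lxy : lx (py Ω) = 0 := by simp [lx, cf, py]
  have lyx : ly (px Ω) = 0 := by simp [ly, cf, px]
  have lyy : ly (py Ω) = 1 := by simp [ly, cf, py]
  constructor
  · intro c
    obtain ⟨σ, hσ⟩ := exists_aut (shf c) (shf (-c)) (hs_shf c) (hs_shf (-c))
      (by
        intro s
        rcases s with _ | s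
        · change MvPowerSeries.substAlgHom (R := Ω) _
            (MvPowerSeries.X none + c • MvPowerSeries.X (some ())) = _
          rw [map_add, map_smul, MvPowerSeries.substAlgHom_X, MvPowerSeries.substAlgHom_X]
          simp only [shf]
          rw [neg_smul]
          abel
        · change MvPowerSeries.substAlgHom (R := Ω) _ (MvPowerSeries.X (some ())) = _
          rw [MvPowerSeries.substAlgHom_X]
          rfl)
      (by
        intro s
        rcases s with _ | s
        · change MvPowerSeries.substAlgHom (R := Ω) _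
            (MvPowerSeries.X none + (-c) • MvPowerSeries.X (some ())) = _
          rw [map_add, map_smul, MvPowerSeries.substAlgHom_X, MvPowerSeries.substAlgHom_X]
          simp only [shf]
          rw [neg_smul]
          abel
        · change MvPowerSeries.substAlgHom (R := Ω) _ (MvPowerSeries.X (some ())) = _
          rw [MvPowerSeries.substAlgHom_X]
          rfl)
    obtain ⟨τ, h0, hx, hy⟩ := exists_aut_P2 σ
    have hx' : τ (px Ω) = px Ω := by
      rw [hx, hσ]
      exact E2_some
    have hy' : τ (py Ω) = py Ω + cst c * px Ω := by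
      rw [hy, hσ]
      change E2 (MvPowerSeries.X none + c • MvPowerSeries.X (some ())) = _
      rw [map_add, map_smul, E2_none, E2_some, Algebra.smul_def, algebraMap_P2]
    obtain ⟨l1, l2, l3⟩ := lin τ h0 (by rw [hx', ev0_px])
      (by rw [hy', map_add, map_mul, ev0_px, ev0_py]; ring)
    refine ⟨τ, h0, hx', hy', l1, ?_, ?_⟩
    · intro p
      rw [l2, hx', hy', lx_add, lx_cst_mul, lxx, lxy]
      ring
    · intro p
      rw [l3, hx', hy', ly_add, ly_cst_mul, lyx, lyy]
      ring
  · have key : ∀ s, MvPowerSeries.substAlgHom (R := Ω) (hs_swf (Ω := Ω)) (swf s) =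
        MvPowerSeries.X s := by
      intro s
      rcases s with _ | s
      · change MvPowerSeries.substAlgHom (R := Ω) _ (MvPowerSeries.X (some ())) = _
        rw [MvPowerSeries.substAlgHom_X]
        rfl
      · change MvPowerSeries.substAlgHom (R := Ω) _ (MvPowerSeries.X none) = _
        rw [MvPowerSeries.substAlgHom_X]
        rfl
    obtain ⟨σ, hσ⟩ := exists_aut (swf (Ω := Ω)) swf hs_swf hs_swf key key
    obtain ⟨τ, h0, hx, hy⟩ := exists_aut_P2 σ
    have hx' : τ (px Ω) = py Ω := by
      rw [hx, hσ]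
      exact E2_none
    have hy' : τ (py Ω) = px Ω := by
      rw [hy, hσ]
      exact E2_some
    obtain ⟨l1, l2, l3⟩ := lin τ h0 (by rw [hx', ev0_py]) (by rw [hy', ev0_px])
    refine ⟨τ, h0, hx', hy', l1, ?_, ?_⟩
    · intro p
      rw [l2, hx', hy', lxx, lxy]
      ring
    · intro p
      rw [l3, hx', hy', lyx, lyy]
      ring

end Pool.Agent.H67.HZ.AUT
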