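import Pool.Agent.H12.HS.Targets
import Pool.Agent.H12.HS.Basic

/-!
# Module BRU (MP_eb1332_ag): branch data.
-/

namespace Pool.Agent.H67.HZ.BRU

open Pool.Agent.H12.HS Matrix

universe u

/-- primitive vectors -/
theorem prim {Ω : Type u} [Field Ω] {n : Type} (Q : (n → PowerSeries Ω) → Prop)
    (hQ : ∀ φ : n → PowerSeries Ω, Q ((PowerSeries.X : PowerSeries Ω) • φ) → Q φ) (i0 : n) :
    ∀ (m : ℕ) (φ : n → PowerSeries Ω), Q φ → PowerSeries.coeff m (φ i0) ≠ 0 →
      ∃ φ', Q φ' ∧ ∃ i, PowerSeries.constantCoeff (φ' i) ≠ 0 := by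
  intro m
  induction m with
  | zero =>
    intro φ h1 h2
    exact ⟨φ, h1, i0, by simpa using h2⟩
  | succ m ih =>
    intro φ h1 h2
    by_cases h3 : ∃ i, PowerSeries.constantCoeff (φ i) ≠ 0
    · exact ⟨φ, h1, h3⟩
    · push Not at h3
      have h4 : ∀ i, ∃ ψ, φ i = PowerSeries.X * ψ := fun i => PowerSeries.X_dvd_iff.2 (h3 i)
      choose ψ hψ using h4
      refine ih ψ (hQ ψ ?_) ?_
      · have : (PowerSeries.X : PowerSeries Ω) • ψ = φ := by
          funext i
          rw [hψ i]; rfl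
        rw [this]; exact h1
      · intro h5
        apply h2
        rw [hψ i0, PowerSeries.coeff_succ_X_mul, h5]

/-- a nonzero common left kernel vector -/
theorem exK {K : Type*} [Field K] {n : Type} [Fintype n] [DecidableEq n] (N : Matrix n n K)
    (hN : N * N = 0) (hn : 4 ≤ Fintype.card n) (w : n → K) :
    ∃ φ : n → K, φ ≠ 0 ∧ φ ᵥ* N = 0 ∧ φ ⬝ᵥ w = 0 := by
  classical
  let f : (n → K) →ₗ[K] (n → K) := N.vecMulLinear
  have hf : ∀ v, f v = v ᵥ* N := fun v => rfl
  have h1 : LinearMap.range f ≤ LinearMap.ker f := by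
    rintro v ⟨w', rfl⟩
    rw [LinearMap.mem_ker, hf, hf, Matrix.vecMul_vecMul, hN, Matrix.vecMul_zero]
  have h2 := LinearMap.finrank_range_add_finrank_ker f
  have h3 := Submodule.finrank_mono h1
  rw [Module.finrank_fintype_fun_eq_card] at h2
  have h4 : 1 < Module.finrank K (LinearMap.ker f) := by omega
  let g : LinearMap.ker f →ₗ[K] K :=
    { toFun := fun φ => (φ : n → K) ⬝ᵥ w
      map_add' := fun a b => by simp [add_dotProduct]
      map_smul' := fun a b => by simp [smul_dotProduct] }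
  have h5 : LinearMap.ker g ≠ ⊥ := by
    apply LinearMap.ker_ne_bot_of_finrank_lt
    rw [Module.finrank_self]
    exact h4
  obtain ⟨φ, hφ, hφ0⟩ := (Submodule.ne_bot_iff _).1 h5
  refine ⟨φ, fun h => hφ0 (Subtype.ext h), ?_, hφ⟩
  have := φ.2
  rw [LinearMap.mem_ker, hf] at this
  exact this

theorem exR {R : Type u} [CommRing R] [IsDomain R] {n : Type} [Fintype n] [DecidableEq n]
    (N : Matrix n n R) (hN : N * N = 0) (hn : 4 ≤ Fintype.card n) (w : n → R) :
    ∃ φ : n → R, φ ≠ 0 ∧ φ ᵥ* N = 0 ∧ φ ⬝ᵥ w = 0 := by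
  classical
  let K := FractionRing R
  have hinj : Function.Injective (algebraMap R K) := IsFractionRing.injective R K
  obtain ⟨φ, h0, h1, h2⟩ := exK (N.map (algebraMap R K)) (by
    rw [← Matrix.map_mul, hN]
    ext i j
    simp) hn (fun i => algebraMap R K (w i))
  obtain ⟨b, hb⟩ := IsLocalization.exist_integer_multiples_of_finite (nonZeroDivisors R) φ
  choose ψ hψ using hb
  have hψ' : ∀ i, algebraMap R K (ψ i) = algebraMap R K b * φ i := by
    intro i
    rw [hψ i, Algebra.smul_def]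
  have hb0 : algebraMap R K b ≠ 0 := by
    rw [Ne, map_eq_zero_iff _ hinj]
    exact nonZeroDivisors.ne_zero b.2
  refine ⟨ψ, ?_, ?_, ?_⟩
  · obtain ⟨i, hi⟩ := Function.ne_iff.1 h0
    intro h
    have := hψ' i
    rw [h, Pi.zero_apply, map_zero] at this
    exact mul_ne_zero hb0 hi this.symm
  · funext j
    apply hinj
    have h3 := congrFun h1 j
    simp only [Matrix.vecMul, dotProduct, Matrix.map_apply, Pi.zero_apply] at h3
    simp only [Matrix.vecMul, dotProduct, Pi.zero_apply, map_sum, map_mul, hψ', map_zero]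
    simp only [mul_assoc, ← Finset.mul_sum]
    rw [h3, mul_zero]
  · apply hinj
    simp only [dotProduct] at h2
    simp only [dotProduct, map_sum, map_mul, hψ', map_zero]
    simp only [mul_assoc, ← Finset.mul_sum]
    rw [h2, mul_zero]

theorem bru : T_BRU.{u} := by
  intro Ω _ _ n _ _ a T ha0 ha1 hT hn u hu hu0
  set N : Matrix n n (PowerSeries Ω) := T.map PowerSeries.constantCoeff with hNdef
  set h : P2 Ω := cst (a 1) * px Ω ^ 3 + cst (a 2) * px Ω ^ 2 * py Ω +
    cst (a 3) * px Ω * py Ω ^ 2 + cst (a 4) * py Ω ^ 3 with hh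
  have hq : quart a = py Ω * h := by
    rw [quart, Fin.sum_univ_five, hh, ha0]
    simp only [Fin.val_zero, Fin.val_one, Fin.val_two, cst_zero, Fin.isValue]
    norm_num
    ring
  have hch : PowerSeries.constantCoeff h = PowerSeries.C (a 1) * PowerSeries.X ^ 3 := by
    rw [hh]
    simp [py, px, cst]
  have hch0 : PowerSeries.constantCoeff h ≠ 0 := by
    rw [hch]
    refine mul_ne_zero ?_ (pow_ne_zero _ PowerSeries.X_ne_zero)
    rw [Ne, map_eq_zero_iff _ PowerSeries.C_injective]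
    exact ha1
  have hNN : N * N = 0 := by
    rw [hNdef, ← Matrix.map_mul, hT, hq]
    ext1 i j
    simp [py]
  -- the vector u'
  have hcc : ∀ v : n → P2 Ω, ∀ i, PowerSeries.constantCoeff ((T *ᵥ v) i) =
      (N *ᵥ fun j => PowerSeries.constantCoeff (v j)) i := by
    intro v i
    simp [Matrix.mulVec, dotProduct, hNdef]
  have hcc' : ∀ v : n → P2 Ω, ∀ i, PowerSeries.constantCoeff ((v ᵥ* T) i) =
      ((fun j => PowerSeries.constantCoeff (v j)) ᵥ* N) i := by
    intro v i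
    simp [Matrix.vecMul, dotProduct, hNdef]
  have hcd : ∀ v w : n → P2 Ω, PowerSeries.constantCoeff (v ⬝ᵥ w) =
      (fun j => PowerSeries.constantCoeff (v j)) ⬝ᵥ
        fun j => PowerSeries.constantCoeff (w j) := by
    intro v w
    simp [dotProduct]
  have hCC : ∀ v : n → PowerSeries Ω,
      (fun j => PowerSeries.constantCoeff ((PowerSeries.C ∘ v : n → P2 Ω) j)) = v := by
    intro v
    funext j
    simp
  have h1 : ∀ i, ∃ q, (T *ᵥ (PowerSeries.C ∘ u)) i = py Ω * q := by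
    intro i
    have : py Ω ∣ (T *ᵥ (PowerSeries.C ∘ u)) i := by
      rw [py_dvd_iff, hcc, hCC, hu]; rfl
    exact this
  choose u' hu' using h1
  have hu'' : T *ᵥ (PowerSeries.C ∘ u) = py Ω • u' := by
    funext i
    exact hu' i
  have h2 : T *ᵥ u' = h • (PowerSeries.C ∘ u : n → P2 Ω) := by
    have h3 : py Ω • (T *ᵥ u') = py Ω • (h • (PowerSeries.C ∘ u : n → P2 Ω)) := by
      rw [← Matrix.mulVec_smul, ← hu'', Matrix.mulVec_mulVec, hT, hq, Matrix.smul_mulVec,
        Matrix.one_mulVec, smul_smul]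
    funext i
    have := congrFun h3 i
    simp only [Pi.smul_apply, smul_eq_mul] at this ⊢
    exact mul_left_cancel₀ py_ne_zero this
  set ub : n → PowerSeries Ω := fun j => PowerSeries.constantCoeff (u' j) with hub
  have h3 : N *ᵥ ub = (PowerSeries.C (a 1) * PowerSeries.X ^ 3) • u := by
    funext i
    rw [← hcc u' i, h2, Pi.smul_apply, smul_eq_mul, map_mul, hch]
    simp
  obtain ⟨φ0, hφ0, hφ1, hφ2⟩ := exR N hNN hn ub
  obtain ⟨i0, hi0⟩ := Function.ne_iff.1 hφ0
  obtain ⟨m, hm⟩ : ∃ m, PowerSeries.coeff m (φ0 i0) ≠ 0 := by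
    by_contra hcon
    push Not at hcon
    apply hi0
    ext m
    rw [hcon m]
    simp
  obtain ⟨φ, ⟨hφN, hφu⟩, hφp⟩ := prim (fun φ => φ ᵥ* N = 0 ∧ φ ⬝ᵥ ub = 0) (by
    rintro φ ⟨h4, h5⟩
    rw [Matrix.smul_vecMul] at h4
    rw [smul_dotProduct, smul_eq_mul] at h5
    refine ⟨?_, ?_⟩
    · funext i
      have := congrFun h4 i
      simp only [Pi.smul_apply, smul_eq_mul, Pi.zero_apply] at this
      rcases mul_eq_zero.1 this with h | h
      · exact absurd h PowerSeries.X_ne_zero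
      · exact h
    · rcases mul_eq_zero.1 h5 with h | h
      · exact absurd h PowerSeries.X_ne_zero
      · exact h) i0 m φ0 ⟨hφ1, hφ2⟩ hm
  have h6 : φ ⬝ᵥ u = 0 := by
    have h7 : φ ⬝ᵥ (N *ᵥ ub) = 0 := by
      rw [Matrix.dotProduct_mulVec, hφN, zero_dotProduct]
    rw [h3, dotProduct_smul, smul_eq_mul, ← hch] at h7
    rcases mul_eq_zero.1 h7 with h | h
    · exact absurd h hch0
    · exact h
  have h8 : ∀ i, ∃ q, ((PowerSeries.C ∘ φ : n → P2 Ω) ᵥ* T) i = py Ω * q := by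
    intro i
    have : py Ω ∣ ((PowerSeries.C ∘ φ : n → P2 Ω) ᵥ* T) i := by
      rw [py_dvd_iff, hcc', hCC, hφN]; rfl
    exact this
  choose φ' hφ' using h8
  obtain ⟨ψ, hψ⟩ : py Ω ∣ (PowerSeries.C ∘ φ : n → P2 Ω) ⬝ᵥ u' := by
    rw [py_dvd_iff, hcd, hCC, hφu]
  refine ⟨φ, ⟨py Ω, px Ω, 0, h, ψ, PowerSeries.C ∘ u, u', PowerSeries.C ∘ φ, φ', ?_, ?_, ?_,
    ?_, hψ, py_ne_zero, ?_, Or.inr ⟨rfl, ?_⟩⟩, hφp, hφN, rfl, rfl, rfl, rfl, rfl⟩
  · rw [hq]; ring
  · have : (PowerSeries.C ∘ φ : n → P2 Ω) ⬝ᵥ (PowerSeries.C ∘ u) =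
        PowerSeries.C (φ ⬝ᵥ u) := by
      simp [dotProduct]
    rw [this, h6, map_zero]
  · rw [hu'', zero_smul, zero_add]
  · rw [zero_smul, zero_add]
    funext i
    exact hφ' i
  · intro p hp
    rw [py_dvd_iff] at hp ⊢
    rw [map_mul] at hp
    rcases mul_eq_zero.1 hp with h | h
    · exfalso
      rw [px, PowerSeries.constantCoeff_C] at h
      exact PowerSeries.X_ne_zero h
    · exact h
  · intro p hp
    rw [py_dvd_iff] at hp ⊢
    rw [map_mul] at hp
    rcases mul_eq_zero.1 hp with h | h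
    · exact absurd h hch0
    · exact h

end Pool.Agent.H67.HZ.BRU
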