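import Pool.Agent.H12.HS.Targets
import Pool.Agent.H12.HS.Basic

/-!
# Module DOM (MP_eb1332_ag): `x^4+y^4` is not a square, `AA` is a domain.
-/

namespace Pool.Agent.H67.HZ.DOM

open Pool.Agent.H12.HS

universe u

theorem nsq (hA : T_AUT.{u}) (Ω : Type u) [Field Ω] [IsAlgClosed Ω] [CharZero Ω]
    (p q : P2 Ω) (h : p ^ 2 = g4 Ω * q ^ 2) : q = 0 := by
  obtain ⟨c, hc⟩ := IsAlgClosed.exists_pow_nat_eq (-1 : Ω) (n := 4) (by norm_num)
  have hc0 : c ≠ 0 := by
    rintro rfl
    norm_num at hc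
  obtain ⟨σ, h0, hx, hy, -, -, -⟩ := (hA Ω).1 c
  have hcc : (cst c : P2 Ω) ^ 4 = -1 := by
    have : (cst c : P2 Ω) ^ 4 = cst (c ^ 4) := by simp [cst]
    rw [this, hc]
    simp [cst]
  set H : P2 Ω := 4 * cst c ^ 3 * px Ω ^ 3 + 6 * cst c ^ 2 * px Ω ^ 2 * py Ω +
    4 * cst c * px Ω * py Ω ^ 2 + py Ω ^ 3 with hH
  have hg : σ (g4 Ω) = py Ω * H := by
    rw [g4, map_add, map_pow, map_pow, hx, hy, hH]
    linear_combination (px Ω ^ 4) * hcc
  have hH0 : PowerSeries.constantCoeff H ≠ 0 := by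
    have h1 : PowerSeries.constantCoeff H =
        (4 : PowerSeries Ω) * PowerSeries.C c ^ 3 * PowerSeries.X ^ 3 := by
      rw [hH]
      have e4 : PowerSeries.constantCoeff (4 : P2 Ω) = 4 := map_ofNat _ 4
      simp only [map_add, map_mul, map_pow, e4, py, px, cst, PowerSeries.constantCoeff_C,
        PowerSeries.constantCoeff_X]
      ring
    rw [h1]
    have h4 : (4 : PowerSeries Ω) ≠ 0 := by
      have : (4 : PowerSeries Ω) = PowerSeries.C (4 : Ω) := (map_ofNat _ 4).symm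
      rw [this, Ne, map_eq_zero_iff _ PowerSeries.C_injective]
      norm_num
    have hC : (PowerSeries.C c : PowerSeries Ω) ≠ 0 := by
      rw [Ne, map_eq_zero_iff _ PowerSeries.C_injective]
      exact hc0
    exact mul_ne_zero (mul_ne_zero h4 (pow_ne_zero _ hC)) (pow_ne_zero _ PowerSeries.X_ne_zero)
  have h1 := congrArg σ h
  rw [map_pow, map_mul, map_pow, hg] at h1
  by_contra hq
  have hq' : σ q ≠ 0 := by
    rw [Ne, map_eq_zero_iff _ σ.injective]
    exact hq
  have hHne : H ≠ 0 := by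
    intro h; rw [h, map_zero] at hH0; exact hH0 rfl
  have hp' : σ p ≠ 0 := by
    intro hp
    rw [hp] at h1
    have : py Ω * H * (σ q) ^ 2 ≠ 0 := mul_ne_zero (mul_ne_zero py_ne_zero hHne) (pow_ne_zero _ hq')
    apply this
    rw [← h1]; ring
  have h2 := congrArg PowerSeries.order h1
  rw [PowerSeries.order_pow, PowerSeries.order_mul, PowerSeries.order_mul, PowerSeries.order_pow,
    py_eq, PowerSeries.order_X] at h2
  have h3 : H.order = 0 := by
    rw [← Nat.cast_zero, PowerSeries.order_eq_nat]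
    refine ⟨?_, fun i hi => absurd hi (Nat.not_lt_zero i)⟩
    rw [PowerSeries.coeff_zero_eq_constantCoeff]
    exact hH0
  rw [h3] at h2
  obtain ⟨a, ha⟩ := ENat.ne_top_iff_exists.1 (PowerSeries.order_eq_top.not.2 hp')
  obtain ⟨b, hb⟩ := ENat.ne_top_iff_exists.1 (PowerSeries.order_eq_top.not.2 hq')
  rw [← ha, ← hb] at h2
  simp only [nsmul_eq_mul, add_zero] at h2
  norm_cast at h2
  omega

theorem dom (hA : T_AUT.{u}) : T_DOM.{u} := by
  intro Ω _ _ _
  refine ⟨fun p q h => nsq hA Ω p q h, ?_⟩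
  have hn : ∀ a : AA Ω, QuadraticAlgebra.norm a = 0 → a = 0 := by
    intro a ha
    rw [QuadraticAlgebra.norm_def] at ha
    have h1 : a.re ^ 2 = g4 Ω * a.im ^ 2 := by
      linear_combination ha
    have h2 := nsq hA Ω _ _ h1
    rw [h2] at h1
    have h3 : a.re ^ 2 = 0 := by rw [h1]; ring
    exact QuadraticAlgebra.ext (pow_eq_zero_iff (two_ne_zero) |>.1 h3) h2
  have : NoZeroDivisors (AA Ω) := by
    constructor
    intro a b hab
    have h1 : QuadraticAlgebra.norm a * QuadraticAlgebra.norm b = 0 := by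
      rw [← map_mul, hab, QuadraticAlgebra.norm_def]
      simp
    rcases mul_eq_zero.1 h1 with h | h
    · left; exact hn a h
    · right; exact hn b h
  have : Nontrivial (AA Ω) := ⟨0, 1, fun h => by
    have h2 := congrArg QuadraticAlgebra.re h
    rw [QuadraticAlgebra.re_zero, QuadraticAlgebra.re_one] at h2
    exact zero_ne_one h2⟩
  exact NoZeroDivisors.to_isDomain _

end Pool.Agent.H67.HZ.DOM
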