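import Pool.Agent.H12.HS.Targets
import Pool.Agent.H12.HS.Basic

/-!
# Module TR0 (MP_eb1332_ag): trace zero.
-/

namespace Pool.Agent.H67.HZ.TR0

open Pool.Agent.H12.HS Matrix

universe u

theorem sum_pm {K : Type*} [Field K] (s : K) (m : Multiset K) (h : ∀ r ∈ m, r = s ∨ r = -s) :
    ∃ k : ℤ, m.sum = k * s := by
  induction m using Multiset.induction_on with
  | empty => exact ⟨0, by simp⟩
  | cons a m ih =>
    obtain ⟨k, hk⟩ := ih fun r hr => h r (Multiset.mem_cons_of_mem hr)
    rcases h a (Multiset.mem_cons_self a m) with ha | ha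
    · exact ⟨k + 1, by rw [Multiset.sum_cons, hk, ha]; push_cast; ring⟩
    · exact ⟨k - 1, by rw [Multiset.sum_cons, hk, ha]; push_cast; ring⟩

theorem trace_sq {K : Type*} [Field K] [IsAlgClosed K] {n : Type} [Fintype n] [DecidableEq n]
    (g : K) (A : Matrix n n K) (hA : A * A = g • (1 : Matrix n n K)) :
    ∃ k : ℤ, A.trace ^ 2 = g * (k : K) ^ 2 := by
  obtain ⟨s, hs⟩ := IsAlgClosed.exists_pow_nat_eq g (n := 2) (by norm_num)
  have h1 : ∀ r ∈ A.charpoly.roots, r = s ∨ r = -s := by
    intro r hr
    have h2 : A.charpoly.eval r = 0 := (Polynomial.mem_roots'.1 hr).2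
    rw [Matrix.eval_charpoly] at h2
    obtain ⟨v, hv, hv2⟩ := Matrix.exists_mulVec_eq_zero_iff.2 h2
    have h3 : A *ᵥ v = r • v := by
      rw [Matrix.sub_mulVec, sub_eq_zero] at hv2
      rw [← hv2]
      simp
    have h4 : g • v = (r * r) • v := by
      have := congrArg (fun M => M *ᵥ v) hA
      simp only [← Matrix.mulVec_mulVec, h3, Matrix.mulVec_smul, Matrix.smul_mulVec,
        Matrix.one_mulVec, smul_smul] at this
      exact this.symm
    have h5 : g = r * r := by
      obtain ⟨i, hi⟩ := Function.ne_iff.1 hv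
      have := congrFun h4 i
      simp only [Pi.smul_apply, smul_eq_mul] at this
      exact mul_right_cancel₀ hi this
    have h6 : (r - s) * (r + s) = 0 := by
      have : s ^ 2 = r * r := by rw [hs, h5]
      linear_combination -this
    rcases mul_eq_zero.1 h6 with h | h
    · left; linear_combination h
    · right; linear_combination h
  obtain ⟨k, hk⟩ := sum_pm s _ h1
  refine ⟨k, ?_⟩
  rw [Matrix.trace_eq_sum_roots_charpoly, hk, mul_pow, hs]
  ring

theorem tr0 : T_TR0.{u} := by
  intro P _ _ g n _ _ T hns hT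
  let K := AlgebraicClosure (FractionRing P)
  have hinj : Function.Injective (algebraMap P K) := by
    rw [IsScalarTower.algebraMap_eq P (FractionRing P) K]
    exact (algebraMap (FractionRing P) K).injective.comp (IsFractionRing.injective P _)
  obtain ⟨k, hk⟩ := trace_sq (algebraMap P K g) (T.map (algebraMap P K)) (by
    rw [← Matrix.map_mul, hT]
    ext i j
    simp only [Matrix.map_apply, Matrix.smul_apply, smul_eq_mul, map_mul, Matrix.one_apply]
    split_ifs <;> simp)
  have h1 : (T.map (algebraMap P K)).trace = algebraMap P K T.trace := by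
    simp [Matrix.trace]
  rw [h1] at hk
  have h2 : T.trace ^ 2 = g * (k : P) ^ 2 := by
    apply hinj
    rw [map_pow, hk, map_mul, map_pow, map_intCast]
  have h3 := hns _ _ h2
  rw [h3] at h2
  have : T.trace ^ 2 = 0 := by rw [h2]; ring
  exact pow_eq_zero_iff (two_ne_zero) |>.1 this

end Pool.Agent.H67.HZ.TR0
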